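import Pool.Agent.U280.OL.Stm
import Pool.Agent.U869.OE.D

set_option autoImplicit false

/-! Project OL, package Q4: Bessel's inequality for the local energy -/

open MeasureTheory FourierTransform Set Filter Topology
open scoped ENNReal

namespace Pool.Agent.U439.OL

open Pool.Agent.U280.OD Pool.Agent.U280.OE Pool.Agent.U280.OL

theorem t_Q4 : Q1 → Q2 → Q3 → Q4 := by
  intro h1 h2 h3 k m N M F hF hFc v hv hvc ho hn ε hε x
  have hmeas : ∀ i n, Measurable (fun τ : ℝ => ‖cop ε τ (av (v i) (F n)) x‖ₑ ^ 2) := by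
    intro i n
    obtain ⟨a1, a2, -⟩ := h1 k m (F n) (hF n) (hFc n) (v i) (hv i) (hvc i)
    have h := Pool.Agent.U869.OE.t_D1 k (av (v i) (F n)) a1 a2 ε hε
    exact ((h.measurable.comp measurable_prodMk_left).enorm).pow_const 2
  rw [← lintegral_finsetSum _ (fun i _ => Finset.measurable_sum _ fun n _ => hmeas i n)]
  unfold tx
  refine setLIntegral_mono' measurableSet_Ioi fun τ hτ => ?_
  rw [Finset.sum_comm]
  refine Finset.sum_le_sum fun n _ => ?_
  obtain ⟨b1, b2⟩ := (h2 k m (F n) (hF n) (hFc n) ε hε).2 τ hτ x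
  have h4 := h3 m M v hv hvc ho hn (fun y => cop ε τ (sl (F n) y) x) b1 b2
  refine le_trans (le_of_eq (Finset.sum_congr rfl fun i _ => ?_)) h4
  rw [(h1 k m (F n) (hF n) (hFc n) (v i) (hv i) (hvc i)).2.2 ε τ hε hτ x]

end Pool.Agent.U439.OL
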